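import Mathlib

/-!
# Round robin

For every finite set `Z` of goods and every order `ρ` of the agents there is an allocation of `Z`
such that, for every set `T` closed upwards for agent `i`, agent `j` has at most as many goods of
`T` as agent `i`, plus one if `j` comes before `i`.
-/

set_option autoImplicit false

namespace Pool.Agent.TwoPool

open Finset

variable {M I : Type*} [DecidableEq M] [Fintype I] [DecidableEq I]

theorem count_step (A : M → I) (Z T : Finset M) (g : M) (hg : g ∈ Z) (s j : I) :
    (Z.filter (fun x => Function.update A g s x = j ∧ x ∈ T)).card =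
      (if s = j ∧ g ∈ T then 1 else 0) +
        ((Z.erase g).filter (fun x => A x = j ∧ x ∈ T)).card := by
  rw [Finset.card_filter, Finset.card_filter, ← Finset.add_sum_erase Z _ hg]
  congr 1
  · simp
  · refine Finset.sum_congr rfl (fun x hx => ?_)
    rw [Function.update_of_ne (Finset.ne_of_mem_erase hx)]

theorem rr [Nonempty I] (w : I → M → ℝ) : ∀ (N : ℕ) (Z : Finset M), Z.card = N →
    ∀ ρ : I → ℕ, Function.Injective ρ →
    ∃ A : M → I, ∀ i j : I, ∀ T : Finset M,
      (∀ x ∈ Z, ∀ y ∈ Z, x ∈ T → w i x ≤ w i y → y ∈ T) →
      (Z.filter (fun x => A x = j ∧ x ∈ T)).card ≤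
        (Z.filter (fun x => A x = i ∧ x ∈ T)).card + (if ρ j < ρ i then 1 else 0) := by
  intro N
  induction N with
  | zero =>
    intro Z hZ ρ _
    rw [Finset.card_eq_zero] at hZ
    subst hZ
    obtain ⟨i0⟩ := ‹Nonempty I›
    exact ⟨fun _ => i0, fun i j T _ => by simp⟩
  | succ N IH =>
    intro Z hZ ρ hρ
    obtain ⟨s, hs⟩ := Finite.exists_min ρ
    have hne : Z.Nonempty := by
      rw [← Finset.card_pos]
      omega
    obtain ⟨g, hg, hmax⟩ := Finset.exists_max_image Z (w s) hne
    have hle : ∀ i, ρ i ≤ Finset.univ.sup ρ := fun i => Finset.le_sup (Finset.mem_univ i)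
    have hρ' : Function.Injective (Function.update ρ s (Finset.univ.sup ρ + 1)) := by
      intro a b hab
      by_cases ha : a = s <;> by_cases hb : b = s
      · rw [ha, hb]
      · subst ha
        rw [Function.update_self, Function.update_of_ne hb] at hab
        have := hle b
        omega
      · subst hb
        rw [Function.update_self, Function.update_of_ne ha] at hab
        have := hle a
        omega
      · rw [Function.update_of_ne ha, Function.update_of_ne hb] at hab
        exact hρ hab
    obtain ⟨A, hA⟩ := IH (Z.erase g) (by rw [Finset.card_erase_of_mem hg]; omega) _ hρ'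
    refine ⟨Function.update A g s, fun i j T hT => ?_⟩
    have hT' : ∀ x ∈ Z.erase g, ∀ y ∈ Z.erase g, x ∈ T → w i x ≤ w i y → y ∈ T :=
      fun x hx y hy => hT x (Finset.mem_of_mem_erase hx) y (Finset.mem_of_mem_erase hy)
    have h := hA i j T hT'
    rw [count_step A Z T g hg s j, count_step A Z T g hg s i]
    by_cases hi : i = s <;> by_cases hj : j = s
    · subst hi
      subst hj
      omega
    · -- agent `s` compares with `j`
      subst hi
      rw [if_neg (fun hh => hj hh.1.symm), if_neg (not_lt.2 (hs j))]
      by_cases hgT : g ∈ T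
      · rw [if_pos ⟨rfl, hgT⟩]
        have h1 : (if Function.update ρ i (Finset.univ.sup ρ + 1) j <
            Function.update ρ i (Finset.univ.sup ρ + 1) i then 1 else 0) ≤ 1 := by
          split_ifs <;> omega
        omega
      · have h1 : (Z.erase g).filter (fun x => A x = j ∧ x ∈ T) = ∅ := by
          rw [Finset.filter_eq_empty_iff]
          intro x hx hh
          exact hgT (hT x (Finset.mem_of_mem_erase hx) g hg hh.2
            (hmax x (Finset.mem_of_mem_erase hx)))
        rw [h1]
        simp
    · subst hj
      have hlt : ρ j < ρ i := lt_of_le_of_ne (hs i) (fun h => hi (hρ h).symm)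
      have e0 : (if j = i ∧ g ∈ T then 1 else 0) = 0 := if_neg (fun hh => hi hh.1.symm)
      rw [if_pos hlt, e0]
      rw [Function.update_self, Function.update_of_ne hi, if_neg (by
        have := hle i
        omega)] at h
      have h1 : (if j = j ∧ g ∈ T then 1 else 0) ≤ 1 := by
        split_ifs <;> omega
      omega
    · rw [Function.update_of_ne hi, Function.update_of_ne hj] at h
      rw [if_neg (fun hh => hj hh.1.symm), if_neg (fun hh => hi hh.1.symm)]
      omega

end Pool.Agent.TwoPool
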