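import Mathlib
import Pool.Agent.TwoPool.RR
import Pool.Agent.Hhelper76.FairDiv

/-!
# Two pools of goods

The goods of a set `H` are picked by round robin in one order, the other goods in the opposite
order.  The allocation is always SD-EF1.
-/

set_option autoImplicit false

namespace Pool.Agent.TwoPool

open Finset Pool.Agent.Hhelper76.FairDiv

variable {M : Type*} [Fintype M] [DecidableEq M] {n : ℕ}

theorem pools (hn : 0 < n) (u : Fin n → M → ℝ) (H : Finset M) :
    ∃ A : M → Fin n, SDEF1 u A ∧ ∀ i j : Fin n,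
      (bundle A j ∩ H).card ≤ (bundle A i ∩ H).card + (if j < i then 1 else 0) ∧
      (bundle A j \ H).card ≤ (bundle A i \ H).card + (if i < j then 1 else 0) := by
  haveI : Nonempty (Fin n) := ⟨⟨0, hn⟩⟩
  obtain ⟨A1, h1⟩ := rr u _ H rfl (fun i => i.val) Fin.val_injective
  obtain ⟨A2, h2⟩ := rr u _ Hᶜ rfl (fun i => n - i.val) (fun a b hab => by
    have := a.isLt
    have := b.isLt
    apply Fin.ext
    dsimp only at hab
    omega)
  have e1 : ∀ (T : Finset M) (j : Fin n),
      (bundle (fun x => if x ∈ H then A1 x else A2 x) j ∩ T) ∩ H =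
        H.filter (fun x => A1 x = j ∧ x ∈ T) := by
    intro T j
    ext x
    simp only [bundle, Finset.mem_inter, Finset.mem_filter, Finset.mem_univ, true_and]
    constructor
    · rintro ⟨⟨h3, h4⟩, h5⟩
      rw [if_pos h5] at h3
      exact ⟨h5, h3, h4⟩
    · rintro ⟨h5, h3, h4⟩
      rw [if_pos h5]
      exact ⟨⟨h3, h4⟩, h5⟩
  have e2 : ∀ (T : Finset M) (j : Fin n),
      (bundle (fun x => if x ∈ H then A1 x else A2 x) j ∩ T) \ H =
        Hᶜ.filter (fun x => A2 x = j ∧ x ∈ T) := by
    intro T j
    ext x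
    simp only [bundle, Finset.mem_inter, Finset.mem_filter, Finset.mem_univ, true_and,
      Finset.mem_sdiff, Finset.mem_compl]
    constructor
    · rintro ⟨⟨h3, h4⟩, h5⟩
      rw [if_neg h5] at h3
      exact ⟨h5, h3, h4⟩
    · rintro ⟨h5, h3, h4⟩
      rw [if_neg h5]
      exact ⟨⟨h3, h4⟩, h5⟩
  have key : ∀ (i j : Fin n) (T : Finset M), (∀ x y, x ∈ T → u i x ≤ u i y → y ∈ T) →
      ((bundle (fun x => if x ∈ H then A1 x else A2 x) j ∩ T) ∩ H).card ≤
        ((bundle (fun x => if x ∈ H then A1 x else A2 x) i ∩ T) ∩ H).card +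
          (if j < i then 1 else 0) ∧
      ((bundle (fun x => if x ∈ H then A1 x else A2 x) j ∩ T) \ H).card ≤
        ((bundle (fun x => if x ∈ H then A1 x else A2 x) i ∩ T) \ H).card +
          (if i < j then 1 else 0) := by
    intro i j T hT
    rw [e1, e1, e2, e2]
    refine ⟨?_, ?_⟩
    · have h := h1 i j T (fun x _ y _ => hT x y)
      simp only [Fin.val_fin_lt] at h
      exact h
    · have h := h2 i j T (fun x _ y _ => hT x y)
      have h3 : (n - j.val < n - i.val) ↔ i < j := by
        rw [Fin.lt_def]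
        have := i.isLt
        have := j.isLt
        omega
      simp only [h3] at h
      exact h
  refine ⟨fun x => if x ∈ H then A1 x else A2 x, ?_, ?_⟩
  · intro i j g
    have h := key i j (Finset.univ.filter (fun x => u i g ≤ u i x)) (by
      intro x y hx hxy
      rw [Finset.mem_filter] at hx ⊢
      exact ⟨Finset.mem_univ _, hx.2.trans hxy⟩)
    have e3 : ∀ k : Fin n, (bundle (fun x => if x ∈ H then A1 x else A2 x) k).filter
        (fun x => u i g ≤ u i x) = bundle (fun x => if x ∈ H then A1 x else A2 x) k ∩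
          Finset.univ.filter (fun x => u i g ≤ u i x) := by
      intro k
      ext x
      simp
    rw [e3, e3]
    have h5 := Finset.card_inter_add_card_sdiff
      (bundle (fun x => if x ∈ H then A1 x else A2 x) j ∩
        Finset.univ.filter (fun x => u i g ≤ u i x)) H
    have h6 := Finset.card_inter_add_card_sdiff
      (bundle (fun x => if x ∈ H then A1 x else A2 x) i ∩
        Finset.univ.filter (fun x => u i g ≤ u i x)) H
    rcases lt_trichotomy i j with hij | hij | hij
    · rw [if_neg (not_lt.2 hij.le), if_pos hij] at h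
      omega
    · subst hij
      omega
    · rw [if_pos hij, if_neg (not_lt.2 hij.le)] at h
      omega
  · intro i j
    have h := key i j Finset.univ (fun x y _ _ => Finset.mem_univ y)
    simpa only [Finset.inter_univ] using h

/-- The large goods theorem. -/
theorem large (hn : 0 < n) (u : Fin n → M → ℝ) (v : M → ℝ) (hv : ∀ g, 0 ≤ v g) (H : Finset M)
    (hH : H.card = n)
    (hR : ∀ R : Finset M, Disjoint R H → n * (R.card - 1) < Fintype.card M - n →
      ∀ h ∈ H, value v R ≤ v h) :
    ∃ A : M → Fin n, SDEF1 u A ∧ EF1 (fun _ => v) A := by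
  obtain ⟨A, hA, hc⟩ := pools hn u H
  refine ⟨A, hA, ?_⟩
  -- the sums of the counts
  have s1 : ∑ i : Fin n, (bundle A i ∩ H).card = n := by
    have h := Finset.card_eq_sum_card_fiberwise (f := A) (s := H) (t := Finset.univ)
      (fun x _ => Finset.mem_coe.2 (Finset.mem_univ _))
    rw [hH] at h
    refine Eq.trans (Finset.sum_congr rfl (fun i _ => ?_)) h.symm
    congr 1
    ext x
    simp [bundle, and_comm]
  have s2 : ∑ i : Fin n, (bundle A i \ H).card = Fintype.card M - n := by
    have h := Finset.card_eq_sum_card_fiberwise (f := A) (s := Hᶜ) (t := Finset.univ)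
      (fun x _ => Finset.mem_coe.2 (Finset.mem_univ _))
    rw [Finset.card_compl, hH] at h
    refine Eq.trans (Finset.sum_congr rfl (fun i _ => ?_)) h.symm
    congr 1
    ext x
    simp [bundle, and_comm]
  have b1 : ∀ i j : Fin n, (bundle A j ∩ H).card ≤ (bundle A i ∩ H).card + 1 := fun i j => by
    have h := (hc i j).1
    have h2 : (if j < i then 1 else 0) ≤ 1 := by split_ifs <;> omega
    omega
  have b2 : ∀ i j : Fin n, (bundle A j \ H).card ≤ (bundle A i \ H).card + 1 := fun i j => by
    have h := (hc i j).2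
    have h2 : (if i < j then 1 else 0) ≤ 1 := by split_ifs <;> omega
    omega
  have c1 : ∀ i : Fin n, 1 ≤ (bundle A i ∩ H).card := by
    intro i
    by_contra hcon
    have h0 : (bundle A i ∩ H).card = 0 := by omega
    have h : ∑ j : Fin n, (bundle A j ∩ H).card < ∑ _j : Fin n, 1 :=
      Finset.sum_lt_sum (fun j _ => by
        have := b1 i j
        omega) ⟨i, Finset.mem_univ i, by omega⟩
    rw [s1] at h
    simp at h
  have c2 : ∀ i : Fin n, (bundle A i ∩ H).card = 1 := by
    intro i
    by_contra hcon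
    have h : ∑ _j : Fin n, 1 < ∑ j : Fin n, (bundle A j ∩ H).card :=
      Finset.sum_lt_sum (fun j _ => c1 j) ⟨i, Finset.mem_univ i, by
        have := c1 i
        omega⟩
    rw [s1] at h
    simp at h
  have c3 : ∀ j : Fin n, 1 ≤ (bundle A j \ H).card →
      n * ((bundle A j \ H).card - 1) < Fintype.card M - n := by
    intro j hj
    have h : ∑ _i : Fin n, ((bundle A j \ H).card - 1) < ∑ i : Fin n, (bundle A i \ H).card :=
      Finset.sum_lt_sum (fun i _ => by
        have := b2 i j
        omega) ⟨j, Finset.mem_univ j, by omega⟩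
    rw [s2] at h
    simpa using h
  intro i j
  right
  obtain ⟨hj, hj1⟩ := Finset.card_eq_one.1 (c2 j)
  obtain ⟨hi, hi1⟩ := Finset.card_eq_one.1 (c2 i)
  have mj : hj ∈ bundle A j ∩ H := by rw [hj1]; exact Finset.mem_singleton_self _
  have mi : hi ∈ bundle A i ∩ H := by rw [hi1]; exact Finset.mem_singleton_self _
  refine ⟨hj, (Finset.mem_inter.1 mj).1, ?_⟩
  have e1 : (bundle A j).erase hj = bundle A j \ H := by
    ext x
    rw [Finset.mem_erase, Finset.mem_sdiff]
    constructor
    · rintro ⟨h1, h2⟩
      refine ⟨h2, fun h3 => h1 ?_⟩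
      have : x ∈ bundle A j ∩ H := Finset.mem_inter.2 ⟨h2, h3⟩
      rw [hj1] at this
      exact Finset.mem_singleton.1 this
    · rintro ⟨h1, h2⟩
      exact ⟨fun h3 => h2 (h3 ▸ (Finset.mem_inter.1 mj).2), h1⟩
  have e2 : value v (bundle A j \ H) ≤ v hi := by
    by_cases h1 : 1 ≤ (bundle A j \ H).card
    · exact hR _ Finset.sdiff_disjoint (c3 j h1) hi (Finset.mem_inter.1 mi).2
    · have h2 : bundle A j \ H = ∅ := Finset.card_eq_zero.1 (by omega)
      rw [h2]
      simpa [value] using hv hi
  have e3 : v hi ≤ value v (bundle A i) :=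
    Finset.single_le_sum (f := v) (fun x _ => hv x) (Finset.mem_inter.1 mi).1
  rw [e1]
  exact e2.trans e3

end Pool.Agent.TwoPool
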